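import Pool.Agent.Helper970.Rad.Main

set_option autoImplicit false

open Real MeasureTheory

namespace Pool.Agent.Results.MP_8d28ad_mp.RadialSharpCLR

open Pool.Agent.Helper970.Rad

/-- A radial potential is given by a measurable profile. -/
lemma profile (W : EuclideanSpace ℝ (Fin 3) → ℝ) (hW : Measurable W) (hW0 : ∀ x, 0 ≤ W x)
    (hr : ∀ x y, ‖x‖ = ‖y‖ → W x = W y) :
    ∃ w : ℝ → ℝ, Measurable w ∧ (∀ r, 0 ≤ w r) ∧ ∀ x, W x = w ‖x‖ := by
  refine ⟨fun r => W (r • EuclideanSpace.single 0 1), ?_, fun r => hW0 _, fun x => ?_⟩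
  · exact hW.comp (measurable_id.smul_const _)
  · refine hr _ _ ?_
    rw [norm_smul]
    simp

/-- **The sharp Cwikel-Lieb-Rozenblum inequality in dimension three for radial potentials.**
The best constant `C` with `N(-Δ - W) ≤ C ∫ W^{3/2}` for all radial `W ≥ 0` is
`(3π)^{-3/2} Γ(3) / Γ(3/2)`. -/
theorem result :
    IsLeast
      {C : ℝ | ∀ W : EuclideanSpace ℝ (Fin 3) → ℝ, Measurable W → (∀ x, 0 ≤ W x) →
        (∀ x y, ‖x‖ = ‖y‖ → W x = W y) →
        Integrable (fun x => W x ^ (3 / 2 : ℝ)) →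
        ∀ (n : ℕ) (u : Fin n → EuclideanSpace ℝ (Fin 3) → ℝ),
          (∀ i, ContDiff ℝ (⊤ : ℕ∞) (u i) ∧ HasCompactSupport (u i)) →
          (∀ c : Fin n → ℝ, c ≠ 0 →
            ∫ x, (‖fderiv ℝ (fun y => ∑ i, c i * u i y) x‖ ^ 2
                  - W x * (∑ i, c i * u i x) ^ 2) < 0) →
          (n : ℝ) ≤ C * ∫ x, W x ^ (3 / 2 : ℝ)}
      ((3 * π) ^ (-(3 / 2 : ℝ)) * Real.Gamma 3 / Real.Gamma (3 / 2)) := by
  constructor
  · intro W hW hW0 hr hi n u hu hneg
    obtain ⟨w, hw, hw0, hWw⟩ := profile W hW hW0 hr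
    have e : W = fun x => w ‖x‖ := funext hWw
    subst e
    exact upper w hw hw0 hi n u hu hneg
  · intro C hC
    refine sharp C ?_
    intro w hw hw0 hi n u hu hneg
    exact hC (fun x => w ‖x‖) (hw.comp measurable_norm) (fun x => hw0 _)
      (fun x y hxy => by show w ‖x‖ = w ‖y‖; rw [hxy]) hi n u hu hneg

end Pool.Agent.Results.MP_8d28ad_mp.RadialSharpCLR
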